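import Pool.Agent.H447R3.DegDefs
import Pool.Agent.H914R2.CorrDefs

/-!
# Spreading out algebraic cycles: definitions
-/

set_option autoImplicit false

open CategoryTheory AlgebraicGeometry

universe u v u' v'

namespace Pool.Agent.L0h13.TS

open Pool.Agent.H914 Pool.Agent.H914.VarClass Pool.Agent.H914.VarClass.Obj Pool.Agent.H447

section Alg

variable {K : Type*} [Field K] {A : Type*} [Ring A] [Algebra K A] {B : Type*} [Ring B] [Algebra K B]

/-- The form `(x, y) ↦ t (x y)` is nondegenerate on the image of the linear map `f`. -/
def NondegOnImage (t : B →ₗ[K] K) (f : A →ₗ[K] B) : Prop :=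
  ∀ a, (∀ b, t (f a * f b) = 0) → f a = 0

/-- The map `f` is injective on the subspaces `gr j` for `j ≤ m`. -/
def InjectiveUpTo (gr : ℕ → Submodule K A) (f : A →ₐ[K] B) (m : ℕ) : Prop :=
  ∀ j ≤ m, ∀ a ∈ gr j, f a = 0 → a = 0

end Alg

section

variable {k : Type u} [Field k] {𝒱 : VarClass k} {ops : CycleOps 𝒱}

/-- The image of the cycle `t` on `T` under the correspondence `γ` from `T` to `Y`. -/
noncomputable def image (ops : CycleOps 𝒱) {T Y : 𝒱.Obj} (γ : (T.prod Y).Cycles) (t : T.Cycles) :
    Y.Cycles :=
  ops.push (snd T Y) (ops.mul γ (ops.pull (fst T Y) t))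

/-- The cycle `z` is homologically equivalent to zero. -/
def HomTrivial (W : WeilCohomology.{u, v} ops) (X : 𝒱.Obj) (z : X.Cycles) : Prop :=
  W.cl X z = 0

/-- The cup product on the cohomology of `Y` induces a nondegenerate form on the image of the
cohomology of `T` under the correspondence `γ`. -/
def IsNondegenerateOnImage (W : WeilCohomology.{u, v} ops) {T Y : 𝒱.Obj}
    (γ : (T.prod Y).Cycles) : Prop :=
  NondegOnImage (W.tr Y) (W.corr (W.cl (T.prod Y) γ))

/-- The conjecture D for cycles of dimension `d` on `X`. -/
def DInDim (W : WeilCohomology.{u, v} ops) (X : 𝒱.Obj) (d : ℕ) : Prop :=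
  d ≤ X.dim → HomEqNumIn W X (X.dim - d)

end

/-- The cycle `z` of dimension `d` on the variety `X` (over one field, with the Weil cohomology `W'`)
spreads out to the cycle `t` on the variety `T` over another field, with the Weil cohomology `W`.
In the intended use `X` is the geometric generic fibre and `Y` is the fibre over a closed point of
a smooth projective family, `T` is a smooth projective variety with a dominant generically finite map
to a compactification of the total space of the family, `γ` is the correspondence from `T` to `Y`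
given by the inverse image of `Y` in `T`, and `t` is the closure of the inverse image of `z`. The image
of `t` in `Y` is a multiple of the specialization of `z`, and in the same way cycles `w` on `T` give
cycles on `X`. The image of the cohomology of `T` is the space of invariants of the fundamental group,
and `nondeg` is a consequence of the semisimplicity of this action (Deligne). -/
structure SpreadsOut {K : Type u'} [Field K] {𝒱' : VarClass K} {ops' : CycleOps 𝒱'}
    (W' : WeilCohomology.{u', v'} ops') (X : 𝒱'.Obj) (d : ℕ) (z : X.Cycles) {k : Type u}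
    [Field k] {𝒱 : VarClass k} {ops : CycleOps 𝒱} (W : WeilCohomology.{u, v} ops) (T Y : 𝒱.Obj)
    (γ : (T.prod Y).Cycles) (t : T.Cycles) : Prop where
  dim_eq : Y.dim = X.dim
  dim_le : Y.dim ≤ T.dim
  corr : (T.prod Y).IsCyc T.dim γ
  isCyc : T.IsCyc (X.dim - d) t
  degree : ∀ w, T.IsCyc d w → ∃ w', X.IsCyc d w' ∧
    Y.V.degCycle (ops.mul (image ops γ t) (image ops γ w)) = X.V.degCycle (ops'.mul z w')
  hom : HomTrivial W Y (image ops γ t) → HomTrivial W' X z
  nondeg : IsNondegenerateOnImage W γ

/-- Every cycle of dimension `d` on `X` spreads out to a cycle on a variety `T` with the property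
`P`. -/
def AllSpreadOut {K : Type u'} [Field K] {𝒱' : VarClass K} {ops' : CycleOps 𝒱'}
    (W' : WeilCohomology.{u', v'} ops') (X : 𝒱'.Obj) (d : ℕ) {k : Type u}
    [Field k] {𝒱 : VarClass k} {ops : CycleOps 𝒱} (W : WeilCohomology.{u, v} ops)
    (P : 𝒱.Obj → Prop) : Prop :=
  ∀ z, X.IsCyc (X.dim - d) z → ∃ T Y γ t, P T ∧ SpreadsOut W' X d z W T Y γ t

end Pool.Agent.L0h13.TS
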