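import Pool.Agent.L0h13.TS.Defs

/-!
# Sections: definitions
-/

set_option autoImplicit false

open CategoryTheory AlgebraicGeometry

universe u v

namespace Pool.Agent.L0h13.TS

open Pool.Agent.H914 Pool.Agent.H914.VarClass Pool.Agent.H914.VarClass.Obj Pool.Agent.H447

variable {k : Type u} [Field k] {𝒱 : VarClass k} {ops : CycleOps 𝒱}

/-- Every variety `X` has sections `Y` of all dimensions `m ≤ dim X` with the weak Lefschetz
property (the restriction from `X` to `Y` is injective in degrees `≤ m`), and in every dimension
there is a variety `P` in the class with a zero-cycle of nonzero degree. In the intended use the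
sections are the smooth linear sections, and `P` is a projective space. -/
def HasSections (W : WeilCohomology.{u, v} ops) : Prop :=
  (∀ (X : 𝒱.Obj) (m : ℕ), m ≤ X.dim → ∃ (Y : 𝒱.Obj) (i : Y ⟶ X), Y.dim = m ∧
    InjectiveUpTo (W.gr X) (W.map i) m) ∧
  ∀ m : ℕ, ∃ P : 𝒱.Obj, P.dim = m ∧ ∃ z, P.IsCyc P.dim z ∧ P.V.degCycle z ≠ 0

/-- The conjecture D in the middle dimension: for every variety of dimension `2 m` in the class, the
conjecture D for cycles of dimension `m`. -/
def DInMiddle (W : WeilCohomology.{u, v} ops) : Prop :=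
  ∀ (Y : 𝒱.Obj) (m : ℕ), Y.dim = 2 * m → HomEqNumIn W Y m

end Pool.Agent.L0h13.TS
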