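import Pool.Agent.L0h13.TS.Main
import Pool.Agent.W534.PoleD

/-!
# The Tate conjecture and the conjecture D in complementary codimensions
-/

set_option autoImplicit false

open CategoryTheory AlgebraicGeometry

universe u v

namespace Pool.Agent.L0h13.TS

open Pool.Agent.H914 Pool.Agent.H914.VarClass Pool.Agent.H914.VarClass.Obj
  Pool.Agent.H914.WeilCohomology Pool.Agent.H447 Pool.Agent.W534

variable {k : Type u} [Field k] {𝒱 : VarClass k} {ops : CycleOps 𝒱}
  {W : WeilCohomology.{u, v} ops} {Z : 𝒱.Obj} {p : ℕ} {Φ : FrobSystem W p}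

/-- **The Tate conjecture and the conjecture D in codimension `j` imply the conjecture D in the
complementary codimension.** -/
theorem homEqNumIn_of_tate {j l : ℕ} (hl : j + l = Z.dim) (hT : TateIn Φ Z j)
    (hD : HomEqNumIn W Z j) : HomEqNumIn W Z l := by
  obtain ⟨t₁, ht₁, h1⟩ := exists_span_eig Φ Z j
  obtain ⟨t₂, ht₂, h2⟩ := exists_span_eig Φ Z l
  obtain ⟨s, hsdef⟩ : ∃ s, s = t₁ * t₂ := ⟨_, rfl⟩
  have hs : 0 < s := by rw [hsdef]; exact Nat.mul_pos ht₁ ht₂
  have hs1 : ∀ c ∈ spanCycles W Z j, frob Φ Z s c = ((card Φ Z s : W.K) ^ j) • c := by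
    intro c hc
    rw [hsdef]
    exact span_eig_mul Φ (h1 c hc) t₂
  have hs2 : ∀ c ∈ spanCycles W Z l, frob Φ Z s c = ((card Φ Z s : W.K) ^ l) • c := by
    intro c hc
    rw [hsdef]
    exact span_eig_mul' Φ (h2 c hc) t₁
  have hSG : genTate Φ Z s j ≤ spanCycles W Z j := by
    intro x hx
    obtain ⟨⟨n, hn⟩, hxg⟩ := (mem_genTate Φ).1 hx
    set A := frob Φ Z s - ((card Φ Z s : W.K) ^ j) • (1 : Module.End W.K (W.H Z)) with hA
    have hAx : ∀ y, A y = 0 → frob Φ Z s y = ((card Φ Z s : W.K) ^ j) • y := by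
      intro y hy
      rw [hA, LinearMap.sub_apply, LinearMap.smul_apply, Module.End.one_apply, sub_eq_zero] at hy
      exact hy
    have hAg : ∀ y ∈ W.gr Z (2 * j), A y ∈ W.gr Z (2 * j) := by
      intro y hy
      rw [hA, LinearMap.sub_apply, LinearMap.smul_apply, Module.End.one_apply]
      exact Submodule.sub_mem _ (W.map_mem _ hy) (Submodule.smul_mem _ _ hy)
    have htate : ∀ y ∈ W.gr Z (2 * j), A y = 0 → y ∈ spanCycles W Z j := by
      intro y hy h0
      apply hT
      refine ⟨hy, s, hs, ?_⟩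
      have := hAx y h0
      rwa [card_pow, frob_apply] at this
    apply htate x hxg
    refine ker_of_sq' hAg ?_ hxg hn
    intro y hy h0
    apply hD.span hl (htate _ (hAg y hy) h0)
    intro w hw
    rw [W.even_comm (W.cl_mem hw)]
    have h5 := tr_adj Φ (Z := Z) (s := s) (μ := (card Φ Z s : W.K) ^ j)
      (μ' := (card Φ Z s : W.K) ^ l) (by rw [← pow_add, hl]) y (W.cl Z w)
    rw [← hA, LinearMap.sub_apply, LinearMap.smul_apply, Module.End.one_apply,
      hs2 _ (mem_span_cl hw), sub_self, mul_zero, map_zero] at h5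
    rcases mul_eq_zero.1 h5.symm with h6 | h6
    · exact absurd (neg_eq_zero.1 h6) (pow_ne_zero _ (card_ne Φ s))
    · exact h6
  intro z hz h5
  have horth : ∀ y ∈ spanCycles W Z j, W.tr Z (W.cl _ z * y) = 0 := by
    intro y hy
    induction hy using Submodule.span_induction with
    | mem y hy =>
      obtain ⟨r, hr, w, hw, rfl⟩ := hy
      obtain rfl : r = j := by exact_mod_cast hr
      rw [tr_mul_cl hz hw (by omega), h5 w (by
        rwa [show Z.dim - l = r by omega]), Rat.cast_zero]
    | zero => rw [mul_zero, map_zero]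
    | add a b _ _ ha hb => rw [mul_add, map_add, ha, hb, add_zero]
    | smul a b _ hb => rw [mul_smul_comm, map_smul, hb, smul_zero]
  exact genTate_nondeg Φ (s := s) (by omega) (mem_genTate_of_eig Φ (W.cl_mem hz)
    (hs2 _ (mem_span_cl hz))) (fun y hy => horth y (hSG hy))

end Pool.Agent.L0h13.TS
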