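import Pool.Agent.L0h13.TS.Sec
import Pool.Agent.L0h13.TS.Tate

/-!
# The conjecture D for total spaces: conclusions
-/

set_option autoImplicit false

open CategoryTheory AlgebraicGeometry

universe u v u' v'

namespace Pool.Agent.L0h13.TS

open Pool.Agent.H914 Pool.Agent.H914.VarClass Pool.Agent.H914.VarClass.Obj
  Pool.Agent.H914.WeilCohomology Pool.Agent.H447 Pool.Agent.W534

variable {k : Type u} [Field k] {𝒱 : VarClass k} {ops : CycleOps 𝒱}
  {W : WeilCohomology.{u, v} ops} {K : Type u'} [Field K] {𝒱' : VarClass K} {ops' : CycleOps 𝒱'}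
  {W' : WeilCohomology.{u', v'} ops'} {X : 𝒱'.Obj}

lemma AllSpreadOut.mono {d : ℕ} {P Q : 𝒱.Obj → Prop} (h : AllSpreadOut W' X d W P)
    (hPQ : ∀ T, P T → Q T) : AllSpreadOut W' X d W Q := by
  intro z hz
  obtain ⟨T, Y, γ, t, hT, hs⟩ := h z hz
  exact ⟨T, Y, γ, t, hPQ T hT, hs⟩

theorem dInDim_of_middle (hsec : HasSections W) (hmid : DInMiddle W) {d : ℕ}
    (h : AllSpreadOut W' X d W (fun _ => True)) : DInDim W' X d :=
  dInDim (h.mono (fun T _ _ => homEqNumIn_of_middle hsec hmid T (Nat.sub_le _ _)))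

theorem dInDim_of_tate {p : ℕ} (Φ : FrobSystem W p) {d : ℕ}
    (h : AllSpreadOut W' X d W (fun T => TateIn Φ T d ∧ HomEqNumIn W T d)) : DInDim W' X d :=
  dInDim (h.mono (fun T hT hd => homEqNumIn_of_tate (by omega) hT.1 hT.2))

end Pool.Agent.L0h13.TS
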