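import Pool.Agent.L0h13.TS.Defs
import Pool.Agent.H447R3.DegB

/-!
# The conjecture D for total spaces of families implies the conjecture D for the generic fibre
-/

set_option autoImplicit false

open CategoryTheory AlgebraicGeometry

universe u v u' v'

namespace Pool.Agent.L0h13.TS

open Pool.Agent.H914 Pool.Agent.H914.VarClass Pool.Agent.H914.VarClass.Obj
  Pool.Agent.H914.WeilCohomology Pool.Agent.H447

section One

variable {k : Type u} [Field k] {𝒱 : VarClass k} {ops : CycleOps 𝒱}
  {W : WeilCohomology.{u, v} ops} {T Y : 𝒱.Obj} {γ : (T.prod Y).Cycles}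

lemma cl_image (t : T.Cycles) :
    W.cl Y (image ops γ t) = W.corr (W.cl (T.prod Y) γ) (W.cl T t) := by
  rw [image, W.cl_push, W.cl_mul, W.cl_pull, corr_apply]

lemma image_isCyc (hγ : (T.prod Y).IsCyc T.dim γ) {j : ℕ} {t : T.Cycles} (ht : T.IsCyc j t) :
    Y.IsCyc j (image ops γ t) := by
  apply ops.push_mem _ (ops.mul_mem hγ (ops.pull_mem _ ht))
  rw [dim_prod]
  omega

/-- The transposed correspondence. -/
lemma tr_transpose {q : ℕ} {u : W.H Y} (hu : u ∈ W.gr Y (2 * q)) (c : W.H (T.prod Y))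
    (b : W.H T) : W.tr T (W.push (fst T Y) (c * W.map (snd T Y) u) * b) =
      W.tr Y (u * W.corr c b) := by
  have hu' : W.map (snd T Y) u ∈ W.gr (T.prod Y) (2 * q) := W.map_mem _ hu
  rw [W.tr_push, W.even_comm hu, corr_apply, W.tr_push, mul_assoc, W.even_comm hu', mul_assoc]

theorem transfer {K : Type u'} [Field K] {𝒱' : VarClass K} {ops' : CycleOps 𝒱'}
    {W' : WeilCohomology.{u', v'} ops'} {X : 𝒱'.Obj} {d : ℕ} {z : X.Cycles} {t : T.Cycles}
    (h : SpreadsOut W' X d z W T Y γ t) (hd : d ≤ X.dim) (hD : HomEqNumIn W T (T.dim - d))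
    (hnum : ∀ w, X.IsCyc d w → X.V.degCycle (ops'.mul z w) = 0) : W'.cl X z = 0 := by
  have hdim := h.dim_eq
  have hle := h.dim_le
  have hu := image_isCyc (ops := ops) h.corr h.isCyc
  set s := image ops γ t with hs
  set α : T.Cycles := ops.push (fst T Y) (ops.mul γ (ops.pull (snd T Y) s)) with hα
  have hαcyc : T.IsCyc (T.dim - d) α := by
    apply ops.push_mem _ (ops.mul_mem h.corr (ops.pull_mem _ hu))
    rw [dim_prod]
    omega
  have hcl : W.cl T α = W.push (fst T Y) (W.cl (T.prod Y) γ * W.map (snd T Y) (W.cl Y s)) := by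
    rw [hα, W.cl_push, W.cl_mul, W.cl_pull]
  have h1 : W.cl T α = 0 := by
    apply hD α hαcyc
    intro w hw
    rw [show T.dim - (T.dim - d) = d by omega] at hw
    obtain ⟨w', hw', hww'⟩ := h.degree w hw
    have h2 : (T.V.degCycle (ops.mul α w) : W.K) = (Y.V.degCycle (ops.mul s (image ops γ w)) :
        W.K) := by
      rw [← tr_mul_cl hαcyc hw (by omega), ← tr_mul_cl hu (image_isCyc h.corr hw) (by omega),
        hcl, tr_transpose (W.cl_mem hu), cl_image w]
    have h3 := Rat.cast_injective h2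
    rw [h3, hww', hnum w' hw']
  apply h.hom
  change W.cl Y s = 0
  rw [hs, cl_image]
  apply h.nondeg
  intro b
  rw [← cl_image, ← hs, ← tr_transpose (W.cl_mem hu), ← hcl, h1, zero_mul, map_zero]

/-- **The conjecture D for cycles of dimension `d` on the total spaces implies the conjecture D for
cycles of dimension `d` on the generic fibre.** -/
theorem dInDim {K : Type u'} [Field K] {𝒱' : VarClass K} {ops' : CycleOps 𝒱'}
    {W' : WeilCohomology.{u', v'} ops'} {X : 𝒱'.Obj} {d : ℕ}
    (h : AllSpreadOut W' X d W (fun T => DInDim W T d)) : DInDim W' X d := by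
  intro hd z hz hnum
  obtain ⟨T, Y, γ, t, hT, hs⟩ := h z hz
  refine transfer hs hd (hT ?_) ?_
  · have h1 := hs.dim_eq
    have h2 := hs.dim_le
    omega
  · rwa [show X.dim - (X.dim - d) = d by omega] at hnum

end One

end Pool.Agent.L0h13.TS
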