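import Pool.Agent.L0h13.TS.Main
import Pool.Agent.L0h13.TS.Defs2
import Pool.Agent.H914R2.GFrob

/-!
# Reduction to the middle dimension
-/

set_option autoImplicit false

open CategoryTheory AlgebraicGeometry

universe u v

namespace Pool.Agent.L0h13.TS

open Pool.Agent.H914 Pool.Agent.H914.VarClass Pool.Agent.H914.VarClass.Obj
  Pool.Agent.H914.WeilCohomology Pool.Agent.H447

variable {k : Type u} [Field k] {𝒱 : VarClass k} {ops : CycleOps 𝒱}
  {W : WeilCohomology.{u, v} ops}

/-- A cycle which is numerically equivalent to zero stays so after pull-back to a variety of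
dimension `2 j`. -/
lemma num_pull (W : WeilCohomology.{u, v} ops) {X Y : 𝒱.Obj} (f : Y ⟶ X) {j : ℕ} {z : X.Cycles} (hz : X.IsCyc j z)
    (hY : Y.dim = 2 * j) (hj : j ≤ X.dim)
    (hnum : ∀ w, X.IsCyc (X.dim - j) w → X.V.degCycle (ops.mul z w) = 0) (w : Y.Cycles)
    (hw : Y.IsCyc j w) : Y.V.degCycle (ops.mul (ops.pull f z) w) = 0 := by
  have hp : X.IsCyc (X.dim - j) (ops.push f w) := by
    apply ops.push_mem f hw
    omega
  have h1 := hnum _ hp
  have h2 : (X.V.degCycle (ops.mul z (ops.push f w)) : W.K) =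
      (Y.V.degCycle (ops.mul (ops.pull f z) w) : W.K) := by
    rw [← tr_mul_cl hz hp (by omega), ← tr_mul_cl (ops.pull_mem f hz) hw (by omega), W.cl_push,
      W.cl_pull, W.even_comm (W.cl_mem hz), W.tr_push, ← W.even_comm (W.map_mem f (W.cl_mem hz))]
  rw [h1, Rat.cast_zero] at h2
  exact_mod_cast h2.symm

theorem homEqNumIn_of_middle (hsec : HasSections W) (hmid : DInMiddle W) (X : 𝒱.Obj) {j : ℕ}
    (hj : j ≤ X.dim) : HomEqNumIn W X j := by
  intro z hz hnum
  rcases le_or_gt (2 * j) X.dim with h | h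
  · obtain ⟨Y, i, hY, hi⟩ := hsec.1 X (2 * j) h
    apply hi (2 * j) le_rfl _ (W.cl_mem hz)
    rw [← W.cl_pull]
    apply hmid Y j hY _ (ops.pull_mem i hz)
    intro w hw
    rw [show Y.dim - j = j by omega] at hw
    exact num_pull W i hz hY hj hnum w hw
  · obtain ⟨P, hP, x, hx, hx0⟩ := hsec.2 (2 * j - X.dim)
    have hY : (X.prod P).dim = 2 * j := by
      rw [dim_prod]
      omega
    have h0 : W.map (fst X P) (W.cl X z) = 0 := by
      rw [← W.cl_pull]
      apply hmid _ j hY _ (ops.pull_mem _ hz)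
      intro w hw
      rw [show (X.prod P).dim - j = j by omega] at hw
      exact num_pull W _ hz hY hj hnum w hw
    exact map_fst_inj h0 ⟨W.cl P x, by rw [W.tr_cl hx]; exact_mod_cast hx0⟩

end Pool.Agent.L0h13.TS
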